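import Pool.Agent.Q82.SR4
import Pool.Agent.Q82.SR5

open Filter Topology Set

namespace Pool.Agent.Results.MP_a7a5c5_an.SeparableSuperReflexive

/-- `P` is `r`-separated. -/
def Separated {X : Type*} [NormedAddCommGroup X] (r : ℝ) (P : Set X) : Prop :=
  ∀ x ∈ P, ∀ y ∈ P, x ≠ y → r ≤ ‖x - y‖

/-- `P` is `r`-dense: the closed balls of radius `r` with centres in `P` cover the space. -/
def RDense {X : Type*} [NormedAddCommGroup X] (r : ℝ) (P : Set X) : Prop :=
  ∀ x, ∃ p ∈ P, ‖x - p‖ ≤ r

/-- The simultaneous packing and covering constant `γ(X)`. -/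
noncomputable def gam (X : Type*) [NormedAddCommGroup X] : ℝ :=
  sInf {r : ℝ | 0 < r ∧ ∃ P : Set X, Separated 2 P ∧ RDense r P}

/-- `N` is a norm on `E` which is equivalent to the given norm. -/
structure EquivalentNorm {E : Type*} [NormedAddCommGroup E] [NormedSpace ℝ E] (N : E → ℝ) :
    Prop where
  triangle : ∀ x y, N (x + y) ≤ N x + N y
  homogeneous : ∀ (t : ℝ) x, N (t • x) = |t| * N x
  equivalent : ∃ a A : ℝ, 0 < a ∧ 0 < A ∧ ∀ x, a * ‖x‖ ≤ N x ∧ N x ≤ A * ‖x‖

/-- `N` is uniformly convex: for every `ε ∈ (0, 2]` the infimum of `1 - N ((x + y) / 2)` over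
`N x ≤ 1`, `N y ≤ 1`, `N (x - y) ≥ ε` is positive. -/
def UniformlyConvexNorm {E : Type*} [NormedAddCommGroup E] [NormedSpace ℝ E] (N : E → ℝ) : Prop :=
  ∀ ε : ℝ, 0 < ε → ε ≤ 2 → ∃ δ : ℝ, 0 < δ ∧
    ∀ x y : E, N x ≤ 1 → N y ≤ 1 → ε ≤ N (x - y) → δ ≤ 1 - N ((1 / 2 : ℝ) • (x + y))

/-- `X` is super-reflexive: its completion admits an equivalent uniformly convex norm (by Enflo's
theorem this is the same as the definition through finite representability). -/
def SuperReflexive (X : Type*) [NormedAddCommGroup X] [NormedSpace ℝ X] : Prop :=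
  ∃ N : UniformSpace.Completion X → ℝ, EquivalentNorm N ∧ UniformlyConvexNorm N

/-- Every separable super-reflexive normed space satisfies `γ(X) < 2`. -/
theorem result (X : Type*) [NormedAddCommGroup X] [NormedSpace ℝ X]
    [TopologicalSpace.SeparableSpace X] (hX : SuperReflexive X) : gam X < 2 := by
  have key : ∃ r : ℝ, 0 < r ∧ r < 2 ∧ ∃ P : Set X, (∀ x ∈ P, ∀ y ∈ P, x ≠ y → 2 ≤ ‖x - y‖) ∧
      ∀ x, ∃ p ∈ P, ‖x - p‖ ≤ r := by
    by_cases hfin : FiniteDimensional ℝ X
    · exact Pool.Agent.Q82.SR.finite_case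
    obtain ⟨N, hN, hU⟩ := hX
    obtain ⟨a, A, ha, hA, hequiv⟩ := hN.equivalent
    obtain ⟨δ₀, hδ₀, huc⟩ := hU (1 / 2) (by norm_num) (by norm_num)
    have hnm : Pool.Agent.Q82.SR.Nm
        (fun x : X => a⁻¹ * N (x : UniformSpace.Completion X)) (max 1 (a⁻¹ * A))
        (min δ₀ (1 / 2)) := by
      have hai : 0 < a⁻¹ := by positivity
      refine ⟨fun x y => ?_, fun t x => ?_, fun x => ?_, fun x => ?_, fun x y r hr h1 h2 h3 => ?_,
        by positivity, min_le_right _ _, le_max_left _ _⟩
      · show a⁻¹ * N ((x + y : X) : UniformSpace.Completion X) ≤ _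
        rw [UniformSpace.Completion.coe_add, ← mul_add]
        exact mul_le_mul_of_nonneg_left (hN.triangle _ _) hai.le
      · show a⁻¹ * N ((t • x : X) : UniformSpace.Completion X) = _
        rw [UniformSpace.Completion.coe_smul, hN.homogeneous]
        ring
      · have h := (hequiv (x : UniformSpace.Completion X)).1
        rw [UniformSpace.Completion.norm_coe] at h
        show ‖x‖ ≤ a⁻¹ * N (x : UniformSpace.Completion X)
        rw [inv_mul_eq_div, le_div_iff₀ ha]
        linarith
      · have h := (hequiv (x : UniformSpace.Completion X)).2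
        rw [UniformSpace.Completion.norm_coe] at h
        calc a⁻¹ * N (x : UniformSpace.Completion X) ≤ a⁻¹ * (A * ‖x‖) :=
              mul_le_mul_of_nonneg_left h hai.le
          _ = (a⁻¹ * A) * ‖x‖ := by ring
          _ ≤ max 1 (a⁻¹ * A) * ‖x‖ := mul_le_mul_of_nonneg_right (le_max_right _ _) (norm_nonneg x)
      · -- uniform convexity
        have hs : 0 < a⁻¹ * r⁻¹ := by positivity
        set t : ℝ := a⁻¹ * r⁻¹ with ht
        have hcoe : ∀ z : X, N (t • (z : UniformSpace.Completion X))
            = r⁻¹ * (a⁻¹ * N (z : UniformSpace.Completion X)) := by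
          intro z
          rw [hN.homogeneous, abs_of_pos hs, ht]
          ring
        have hrr : r⁻¹ * r = 1 := inv_mul_cancel₀ hr.ne'
        have hri : 0 < r⁻¹ := by positivity
        have g1 : N (t • ((x + y : X) : UniformSpace.Completion X)) ≤ 1 := by
          rw [hcoe, ← hrr]
          exact mul_le_mul_of_nonneg_left h1 hri.le
        have g2 : N (t • ((x - y : X) : UniformSpace.Completion X)) ≤ 1 := by
          rw [hcoe, ← hrr]
          exact mul_le_mul_of_nonneg_left h2 hri.le
        have g3 : (1 / 2 : ℝ) ≤ N (t • ((x + y : X) : UniformSpace.Completion X)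
            - t • ((x - y : X) : UniformSpace.Completion X)) := by
          have e1 : t • ((x + y : X) : UniformSpace.Completion X)
              - t • ((x - y : X) : UniformSpace.Completion X)
              = (2 : ℝ) • (t • (y : UniformSpace.Completion X)) := by
            have e0 : (x + y) - (x - y) = (2 : ℝ) • y := by rw [two_smul]; abel
            rw [← smul_sub, ← UniformSpace.Completion.coe_sub, e0,
              UniformSpace.Completion.coe_smul, smul_comm]
          rw [e1, hN.homogeneous, hcoe]
          have e2 : r⁻¹ * (r / 4) ≤ r⁻¹ * (a⁻¹ * N (y : UniformSpace.Completion X)) :=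
            mul_le_mul_of_nonneg_left h3 hri.le
          have e3 : r⁻¹ * (r / 4) = 1 / 4 := by field_simp
          have e4 : |(2 : ℝ)| = 2 := by norm_num
          rw [e4]
          linarith
        have g4 := huc _ _ g1 g2 g3
        have e5 : (1 / 2 : ℝ) • (t • ((x + y : X) : UniformSpace.Completion X)
            + t • ((x - y : X) : UniformSpace.Completion X))
            = t • (x : UniformSpace.Completion X) := by
          rw [← smul_add, ← UniformSpace.Completion.coe_add, smul_comm,
            ← UniformSpace.Completion.coe_smul]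
          congr 2
          have : x + y + (x - y) = (2 : ℝ) • x := by rw [two_smul]; abel
          rw [this, smul_smul]
          norm_num
        rw [e5, hcoe] at g4
        have g5 : r⁻¹ * (a⁻¹ * N (x : UniformSpace.Completion X)) ≤ 1 - δ₀ := by linarith
        have g6 : a⁻¹ * N (x : UniformSpace.Completion X) ≤ (1 - δ₀) * r := by
          rw [inv_mul_eq_div, div_le_iff₀ hr] at g5
          exact g5
        refine g6.trans (mul_le_mul_of_nonneg_right ?_ hr.le)
        linarith [min_le_left δ₀ (1 / 2)]
    exact Pool.Agent.Q82.SR.infinite_case hnm hfin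
  obtain ⟨r, hr0, hr2, P, hP, hd⟩ := key
  have hle : gam X ≤ r := csInf_le ⟨0, fun s hs => hs.1.le⟩ ⟨hr0, P, hP, hd⟩
  exact hle.trans_lt hr2

end Pool.Agent.Results.MP_a7a5c5_an.SeparableSuperReflexive
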